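import Mathlib

namespace Pool.Agent.Results.MP_bfac72_an.NotFilter

open Set

/-- transitivity -/
def Trans {X : Type} [TopologicalSpace X] (T : X → X) : Prop :=
  ∀ U V : Set X, IsOpen U → U.Nonempty → IsOpen V → V.Nonempty → ∃ n, ∃ x ∈ U, T^[n] x ∈ V

/-- the set of times at which `U` is stretched beyond `δ` -/
def S {X : Type} [MetricSpace X] (T : X → X) (U : Set X) (δ : ℝ) : Set ℕ :=
  {n | ∃ x ∈ U, ∃ y ∈ U, δ < dist (T^[n] x) (T^[n] y)}

/-- filter-sensitivity -/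
def FilterSens {X : Type} [MetricSpace X] (T : X → X) : Prop :=
  ∃ δ > 0, ∃ 𝓕 : Set (Set ℕ), 𝓕 = {A | ∃ U, IsOpen U ∧ U.Nonempty ∧ S T U δ ⊆ A} ∧
    𝓕.Nonempty ∧ 𝓕 ≠ univ ∧ ∀ A ∈ 𝓕, ∀ B ∈ 𝓕, A ∩ B ∈ 𝓕

/-- thick sensitivity -/
def ThickSens {X : Type} [MetricSpace X] (T : X → X) : Prop :=
  ∃ δ > 0, ∀ U, IsOpen U → U.Nonempty → ∀ l, ∃ a, Ico a (a + l) ⊆ S T U δ

def Q (m : ℕ) : Prop := ∃ i, i * i ≤ m ∧ m < i * i + i.unpair.1

lemma notQ {i m : ℕ} (h1 : i * i + i.unpair.1 ≤ m) (h2 : m < (i + 1) * (i + 1)) : ¬ Q m := by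
  rintro ⟨j, h3, h4⟩
  have := Nat.unpair_left_le j
  rcases lt_trichotomy i j with h | rfl | h
  · nlinarith
  · omega
  · nlinarith

lemma notQ' {i m : ℕ} (h1 : i * i + i ≤ m) (h2 : m ≤ i * i + 2 * i) : ¬ Q m :=
  notQ (i := i) (by have := Nat.unpair_left_le i; omega) (by nlinarith)

def X : Set (ℕ → Bool) := {x | ∀ i j, i < j → x i = true → x j = true → ¬ Q (j - i)}

attribute [local instance] PiNat.metricSpace

def T (x : X) : X := ⟨fun n => x.1 (n + 1), fun i j h h1 h2 => by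
  simpa using x.2 (i + 1) (j + 1) (by omega) h1 h2⟩

lemma T_it (n : ℕ) (x : X) (i : ℕ) : (T^[n] x).1 i = x.1 (n + i) := by
  induction n generalizing i with
  | zero => simp
  | succ n ih =>
    rw [Function.iterate_succ_apply']
    show (T^[n] x).1 (i + 1) = _
    rw [ih, Nat.add_right_comm n 1 i]; rfl

lemma near {x y : X} {k : ℕ} (h : ∀ i < k, x.1 i = y.1 i) : dist x y ≤ (1 / 2) ^ k :=
  PiNat.mem_cylinder_iff_dist_le.1 h

lemma cyl {U : Set X} (hU : IsOpen U) (hne : U.Nonempty) :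
    ∃ z : X, ∃ L0, ∀ L ≥ L0, ∀ w : X, (∀ i < L, w.1 i = z.1 i) → w ∈ U := by
  obtain ⟨z, hz⟩ := hne
  obtain ⟨ε, hε, h⟩ := Metric.isOpen_iff.1 hU z hz
  obtain ⟨L, hL⟩ := exists_pow_lt_of_lt_one hε (by norm_num : (1 / 2 : ℝ) < 1)
  exact ⟨z, L, fun L' h' w hw => h ((near fun i hi => hw i (by omega)).trans_lt hL)⟩

lemma glue (a b : X) (L n : ℕ) (hn : L ≤ n)
    (h : ∀ s < L, ∀ t < L, a.1 s = true → b.1 t = true → ¬ Q (n + t - s)) :
    ∃ c : X, (∀ i < L, c.1 i = a.1 i) ∧ ∀ i < L, (T^[n] c).1 i = b.1 i := by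
  refine ⟨⟨fun i => if i < L then a.1 i else if n ≤ i ∧ i < n + L then b.1 (i - n) else false,
    fun i j hij h1 h2 => ?_⟩, fun i hi => by simp [hi], fun i hi => ?_⟩
  · simp only at h1 h2
    split_ifs at h1 h2 with c1 c2 c3 c4 c5 c6
    · exact a.2 i j hij h1 h2
    · have := h i c1 (j - n) (by omega) h1 h2
      rwa [show n + (j - n) = j by omega] at this
    · omega
    · have := b.2 (i - n) (j - n) (by omega) h1 h2
      rwa [show j - n - (i - n) = j - i by omega] at this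
  · rw [T_it]
    simp only
    rw [if_neg (by omega), if_pos (by omega), Nat.add_sub_cancel_left]

def one (q : ℕ) : X := ⟨fun i => decide (i = q), fun i j h h1 h2 => by
  simp only [decide_eq_true_eq] at h1 h2; omega⟩

lemma two {U : Set X} {z : X} {L n : ℕ} {δ : ℝ} (hδ : δ < 1) (hL : 0 < L) (hn : L ≤ n)
    (hU : ∀ w : X, (∀ i < L, w.1 i = z.1 i) → w ∈ U)
    (h : ∀ s < L, z.1 s = true → ¬ Q (n - s)) : n ∈ S T U δ := by
  obtain ⟨c, h1, h2⟩ := glue z (one 0) L n hn fun s hs t _ h1 h2 => by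
    obtain rfl : t = 0 := by simpa [one] using h2
    exact h s hs h1
  obtain ⟨d, h3, h4⟩ := glue z (one L) L n hn fun s hs t _ h1 h2 => by
    obtain rfl : t = L := by simpa [one] using h2
    omega
  refine ⟨c, hU c h1, d, hU d h3, ?_⟩
  by_contra hc
  have := PiNat.apply_eq_of_dist_lt (x := (T^[n] c).1) (y := (T^[n] d).1) (n := 0) (i := 0)
    (by rw [pow_zero]; exact (not_lt.1 hc).trans_lt hδ) le_rfl
  rw [h2 0 hL, h4 0 hL] at this
  simp [one, hL.ne] at this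

lemma out {δ : ℝ} {k q n : ℕ} (hk : (1 / 2) ^ k ≤ δ) (h : ∀ i < k, q < n + i ∧ Q (n + i - q)) :
    n ∉ S T {x : X | x.1 q = true} δ := by
  rintro ⟨x, hx, y, hy, h1⟩
  refine absurd ((near fun i hi => ?_).trans hk) (not_le.2 h1)
  have : ∀ w : X, w.1 q = true → w.1 (n + i) = false := fun w hw => by
    by_contra h2
    exact w.2 q (n + i) (h i hi).1 hw (by simpa using h2) (h i hi).2
  rw [T_it, T_it, this x hx, this y hy]

theorem result : ∃ (X : Type) (_ : MetricSpace X) (T : X → X), CompactSpace X ∧ Nontrivial X ∧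
    Continuous T ∧ Function.Surjective T ∧ Trans (Prod.map T T) ∧ Trans T ∧ ThickSens T ∧
    ¬ FilterSens T := by
  have hc : ∀ i, Continuous fun x : X => x.1 i := fun i =>
    (continuous_apply i).comp continuous_subtype_val
  have wm : Trans (Prod.map T T) := fun U V hU ⟨p, hp⟩ hV ⟨q, hq⟩ => by
    obtain ⟨u1, u2, a1, a2, a3, a4, a5⟩ := isOpen_prod_iff.1 hU p.1 p.2 hp
    obtain ⟨v1, v2, b1, b2, b3, b4, b5⟩ := isOpen_prod_iff.1 hV q.1 q.2 hq
    obtain ⟨z1, L1, h1⟩ := cyl a1 ⟨_, a3⟩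
    obtain ⟨z2, L2, h2⟩ := cyl a2 ⟨_, a4⟩
    obtain ⟨z3, L3, h3⟩ := cyl b1 ⟨_, b3⟩
    obtain ⟨z4, L4, h4⟩ := cyl b2 ⟨_, b4⟩
    obtain ⟨L, hL⟩ : ∃ L, L = L1 + L2 + L3 + L4 := ⟨_, rfl⟩
    have g := fun a b => glue a b L (2 * L * (2 * L) + 2 * L + L) (by omega)
      fun s _ t _ _ _ => notQ' (i := 2 * L) (by omega) (by omega)
    obtain ⟨c, c1, c2⟩ := g z1 z3
    obtain ⟨d, d1, d2⟩ := g z2 z4
    refine ⟨2 * L * (2 * L) + 2 * L + L, (c, d), a5 ⟨h1 L (by omega) c c1, h2 L (by omega) d d1⟩, ?_⟩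
    rw [Prod.map_iterate]
    exact b5 ⟨h3 L (by omega) _ c2, h4 L (by omega) _ d2⟩
  refine ⟨X, inferInstance, T, isCompact_iff_compactSpace.1 (IsClosed.isCompact ?_),
    ⟨one 0, one 1, fun h => by simpa [one] using congrArg (fun x : X => x.1 0) h⟩,
    Continuous.subtype_mk (continuous_pi fun i => hc _) _, fun y => ?_, wm,
    fun U V hU h1 hV h2 => ?_, ⟨1 / 2, by norm_num, fun U hU h1 l => ?_⟩, ?_⟩
  · simp only [X, setOf_forall]
    refine isClosed_iInter fun i => isClosed_iInter fun j => isClosed_iInter fun _ => ?_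
    have c : Continuous fun x : ℕ → Bool => (x i, x j) := by fun_prop
    simpa only [preimage_setOf_eq, setOf_forall] using
      (isClosed_discrete {p : Bool × Bool | p.1 = true → p.2 = true → ¬ Q (j - i)}).preimage c
  · refine ⟨⟨fun n => Nat.casesOn n false y.1, fun i j h h1 h2 => ?_⟩, rfl⟩
    rcases i with _ | i
    · simp at h1
    obtain ⟨j, rfl⟩ : ∃ k, j = k + 1 := ⟨j - 1, by omega⟩
    simpa using y.2 i j (by omega) h1 h2
  · obtain ⟨n, p, hp, h⟩ := wm _ _ (hU.prod hU) (h1.prod h1) (hV.prod hV) (h2.prod h2)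
    rw [Prod.map_iterate] at h
    exact ⟨n, p.1, hp.1, h.1⟩
  · obtain ⟨z, L, h⟩ := cyl hU h1
    refine ⟨(L + 1 + l) * (L + 1 + l) + (L + 1 + l) + (L + 1), fun n hn => ?_⟩
    have := hn.1
    have := hn.2
    exact two (by norm_num) (Nat.succ_pos L) (by omega) (h _ (by omega))
      fun s _ _ => notQ' (i := L + 1 + l) (by omega) (by omega)
  rintro ⟨δ, hδ, _, rfl, -, hne, h⟩
  rcases le_or_gt 1 δ with h1 | h1
  · refine hne (eq_univ_of_forall fun A => ⟨univ, isOpen_univ, ⟨one 0, trivial⟩, ?_⟩)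
    rintro n ⟨x, -, y, -, h2⟩
    exact absurd ((PiNat.dist_le_one _ _).trans h1) (not_le.2 h2)
  obtain ⟨k, hk⟩ := exists_pow_lt_of_lt_one hδ (by norm_num : (1 / 2 : ℝ) < 1)
  have ho : ∀ q, IsOpen {x : X | x.1 q = true} := fun q =>
    (isOpen_discrete {true}).preimage (hc q)
  obtain ⟨j, hj⟩ : ∃ j, j = Nat.pair (k + 1) 1 := ⟨_, rfl⟩
  have hj1 : 1 ≤ j * j := Nat.mul_pos (hj ▸ Nat.right_le_pair _ _) (hj ▸ Nat.right_le_pair _ _)
  obtain ⟨W, hW, hW1, hW2⟩ := h _ ⟨_, ho 0, ⟨one 0, by simp [one]⟩, Subset.rfl⟩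
    _ ⟨_, ho (j * j + k), ⟨one (j * j + k), by simp [one]⟩, Subset.rfl⟩
  obtain ⟨z, L, hz⟩ := cyl hW hW1
  obtain ⟨i, hi⟩ : ∃ i, i = Nat.pair (k + 1) (L + 2 + j * j + k + k) := ⟨_, rfl⟩
  have hi1 : L + 2 + j * j + k + k ≤ i := hi ▸ Nat.right_le_pair _ _
  have hi2 : i.unpair.1 = k + 1 := by rw [hi, Nat.unpair_pair]
  have hi3 : i ≤ i * i := Nat.le_mul_self i
  have low : ∀ m, m < i * i → i * i < m + i → ¬ Q m := fun m h1 h2 => by
    obtain ⟨i', rfl⟩ : ∃ i', i = i' + 1 := ⟨i - 1, by omega⟩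
    exact notQ' (i := i') (by nlinarith) (by nlinarith)
  by_cases h0 : z.1 0 = true
  · refine out (n := i * i + (j * j + k)) hk.le (fun t ht => ⟨by omega, i, by omega, by omega⟩)
      (hW2 (two h1 (Nat.succ_pos L) (by omega) (hz _ (by omega)) fun s hs hs' => ?_)).2
    rcases lt_or_ge (j * j + k) s with h2 | h2
    · exact low _ (by omega) (by omega)
    rcases lt_or_ge s (j * j) with h3 | h3
    · exact notQ (i := i) (by omega) (by nlinarith [Nat.sub_le (i * i + (j * j + k)) s])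
    · exact absurd ⟨j, by omega, by rw [hj, Nat.unpair_pair, ← hj]; omega⟩
        (z.2 0 s (by omega) h0 hs')
  · refine out (n := i * i) hk.le (fun t ht => ⟨by omega, i, by omega, by omega⟩)
      (hW2 (two h1 (Nat.succ_pos L) (by omega) (hz _ (by omega)) fun s hs hs' => ?_)).1
    have : s ≠ 0 := by rintro rfl; exact h0 hs'
    exact low _ (by omega) (by omega)

end Pool.Agent.Results.MP_bfac72_an.NotFilter
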